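import Pool.Agent.helper60.MW.Spec

set_option autoImplicit false

namespace Pool.Agent.MW

theorem RXS_e (N : ℕ) [NeZero N] (f : ℤ → ℤ → ENNReal) :
    ∑' s : ℤ × ℤ, f s.1 s.2 =
      ∑' s : ℤ × ℤ, ∑ i ∈ Finset.range N, ∑ j ∈ Finset.range N,
        f (N * s.1 + i) (N * s.2 + j) := by
  set e : ℤ × ℤ ≃ (ℤ × ℤ) × (Fin N × Fin N) :=
    ((Int.divModEquiv N).prodCongr (Int.divModEquiv N)).trans (Equiv.prodProdProdComm ℤ (Fin N) ℤ (Fin N)) with he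
  rw [← e.symm.tsum_eq (fun s : ℤ × ℤ => f s.1 s.2)]
  have h1 : ∀ t : (ℤ × ℤ) × (Fin N × Fin N), f (e.symm t).1 (e.symm t).2 =
      f (N * t.1.1 + (t.2.1 : ℕ)) (N * t.1.2 + (t.2.2 : ℕ)) := by
    intro t
    have e1 : (e.symm t).1 = N * t.1.1 + (t.2.1 : ℕ) := by
      rw [mul_comm]
      rfl
    have e2 : (e.symm t).2 = N * t.1.2 + (t.2.2 : ℕ) := by
      rw [mul_comm]
      rfl
    rw [e1, e2]
  rw [tsum_congr h1]
  rw [ENNReal.tsum_prod (f := fun (s : ℤ × ℤ) (u : Fin N × Fin N) =>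
    f (N * s.1 + (u.1 : ℕ)) (N * s.2 + (u.2 : ℕ)))]
  refine tsum_congr fun s => ?_
  rw [tsum_fintype, Fintype.sum_prod_type, Finset.sum_range]
  refine Finset.sum_congr rfl fun i _ => ?_
  rw [Finset.sum_range]

theorem RXS : RXS_stmt := by
  intro f r
  have : NeZero (2 ^ r) := ⟨(Nat.two_pow_pos r).ne'⟩
  have h := RXS_e (2 ^ r) f
  rw [h]
  push_cast
  rfl

end Pool.Agent.MW
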