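import Pool.Agent.helper60.MW.SpecC

set_option autoImplicit false

namespace Pool.Agent.MW

open MeasureTheory Set Pool.Agent.helper17.Worm

open Classical in
theorem BXW_main (m n M : ℕ) (S : Finset (ℤ × ℤ)) (hm : 1 ≤ m) (hn : 8 * m ≤ n) (hM : 1 ≤ M) (hd : m ∣ n ^ 2)
    (hS : FinCov m n S) (hOFF : OFF_stmt) (hCNW : CNW_stmt) (hSHF : SHF_stmt) :
    ∃ S' : Finset (ℤ × ℤ), FinCov m n S' ∧
      (∀ s ∈ S', 1 ≤ S.card ∧ 0 ≤ s.1 ∧ s.1 ≤ (M : ℤ) + (16 * m : ℕ) ∧ 0 ≤ s.2 ∧ s.2 ≤ (M : ℤ) + (16 * m : ℕ)) ∧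
      M ^ 2 * S'.card ≤ S.card * (M + 16 * m) ^ 2 := by
  obtain ⟨u, J, h1, -, h3⟩ := hOFF S M (16 * m) hM
  refine ⟨J.biUnion fun j => (S.filter (fun s => Win M (16 * m) u j s)).image
    (fun s => (s.1 - (j.1 * M + u.1), s.2 - (j.2 * M + u.2))), ?_, ?_, ?_⟩
  · intro P hP
    obtain ⟨α, γ, hR, hN⟩ := hS P hP
    obtain ⟨j, hj⟩ := hCNW m n M P α γ u hm hn hM hP hR
    obtain ⟨γ', hγ⟩ := hSHF m n α γ (-(j.1 * M + u.1), -(j.2 * M + u.2)) hm hd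
    refine ⟨α, γ', hR, fun i s hs => ?_⟩
    rw [hγ] at hs
    have hsS := hN i _ hs
    have hsW := hj i _ hs
    have hsJ := h1 j _ hsS hsW
    rw [Finset.mem_biUnion]
    refine ⟨j, hsJ, ?_⟩
    rw [Finset.mem_image]
    refine ⟨_, Finset.mem_filter.mpr ⟨hsS, hsW⟩, ?_⟩
    ext
    · show s.1 - -(j.1 * (M : ℤ) + u.1) - (j.1 * M + u.1) = s.1
      ring
    · show s.2 - -(j.2 * (M : ℤ) + u.2) - (j.2 * M + u.2) = s.2
      ring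
  · intro s hs
    rw [Finset.mem_biUnion] at hs
    obtain ⟨j, _, hs⟩ := hs
    rw [Finset.mem_image] at hs
    obtain ⟨t, ht, rfl⟩ := hs
    rw [Finset.mem_filter] at ht
    obtain ⟨htS, ⟨⟨w1, w2⟩, w3, w4⟩⟩ := ht
    refine ⟨Finset.card_pos.mpr ⟨t, htS⟩, ?_, ?_, ?_, ?_⟩
    · show 0 ≤ t.1 - (j.1 * (M : ℤ) + u.1)
      linarith
    · show t.1 - (j.1 * (M : ℤ) + u.1) ≤ _
      linarith
    · show 0 ≤ t.2 - (j.2 * (M : ℤ) + u.2)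
      linarith
    · show t.2 - (j.2 * (M : ℤ) + u.2) ≤ _
      linarith
  · refine le_trans (Nat.mul_le_mul_left _ ?_) h3
    refine Finset.card_biUnion_le.trans (Finset.sum_le_sum fun j _ => Finset.card_image_le)

theorem BXW (hOFF : OFF_stmt) (hCNW : CNW_stmt) (hSHF : SHF_stmt) : BXW_stmt := by
  intro m n q S hm hn hd hS
  have hM : 1 ≤ 16 * m * 2 ^ q := Nat.one_le_iff_ne_zero.mpr (by positivity)
  obtain ⟨S', h1, h2, h3⟩ := BXW_main m n (16 * m * 2 ^ q) S hm hn hM hd hS hOFF hCNW hSHF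
  refine ⟨S', h1, fun s hs => ?_, h3⟩
  obtain ⟨a0, a1, a2, a3, a4⟩ := h2 s hs
  have hc : (1 : ℤ) ≤ S.card := by exact_mod_cast a0
  push_cast at a2 a4
  have hb : (0 : ℤ) ≤ 16 * m * 2 ^ q + 16 * m := by positivity
  have hkey : (16 * (m : ℤ) * 2 ^ q + 16 * m) ≤ 4 * S.card * (16 * m * 2 ^ q + 16 * m) := by
    have h4 : (1 : ℤ) ≤ 4 * S.card := by linarith
    have := mul_le_mul_of_nonneg_right h4 hb
    linarith
  exact ⟨a1, a2.trans hkey, a3, a4.trans hkey⟩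

end Pool.Agent.MW
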